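import Pool.Agent.Y142.ZI.Stm

/-! Project OI (helper282), job GEN (helper182): signed permutations. -/

set_option autoImplicit false
set_option linter.unusedVariables false
set_option linter.unusedSectionVars false

namespace Pool.Agent.Q182.OI.GEN

open Equiv

section

variable {R : Type} [DecidableEq R] {ι : Perm R}

theorem inv_self (g : Perm R) (x : R) : g⁻¹ (g x) = x := g.symm_apply_apply x

theorem self_inv (g : Perm R) (x : R) : g (g⁻¹ x) = x := g.apply_symm_apply x

/-- the transposition of two pairs -/
def tt (ι : Perm R) (x y : R) : Perm R := swap x y * swap (ι x) (ι y)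

variable (h1 : ∀ x, ι x ≠ x) (h2 : ∀ x, ι (ι x) = x)

include h2 in
theorem iota_eq {x y : R} (h : ι x = y) : x = ι y := by rw [← h, h2]

include h1 h2 in
theorem tt_x {x y : R} (hy : y ≠ x) (hy' : y ≠ ι x) : tt ι x y x = y := by
  unfold tt
  rw [Perm.mul_apply, swap_apply_of_ne_of_ne (h1 x).symm (fun h => hy' (iota_eq h2 h.symm)),
    swap_apply_left]

include h1 h2 in
theorem tt_y {x y : R} (hy : y ≠ x) (hy' : y ≠ ι x) : tt ι x y y = x := by
  unfold tt
  rw [Perm.mul_apply, swap_apply_of_ne_of_ne hy' (h1 y).symm, swap_apply_right]

include h1 h2 in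
theorem tt_ix {x y : R} (hy : y ≠ x) (hy' : y ≠ ι x) : tt ι x y (ι x) = ι y := by
  unfold tt
  rw [Perm.mul_apply, swap_apply_left,
    swap_apply_of_ne_of_ne (fun h => hy' (iota_eq h2 h)) (h1 y)]

include h1 h2 in
theorem tt_iy {x y : R} (hy : y ≠ x) (hy' : y ≠ ι x) : tt ι x y (ι y) = ι x := by
  unfold tt
  rw [Perm.mul_apply, swap_apply_right, swap_apply_of_ne_of_ne (h1 x) hy'.symm]

theorem tt_o {x y z : R} (a : z ≠ x) (b : z ≠ ι x) (c : z ≠ y) (d : z ≠ ι y) : tt ι x y z = z := by
  unfold tt
  rw [Perm.mul_apply, swap_apply_of_ne_of_ne b d, swap_apply_of_ne_of_ne a c]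

include h1 h2 in
theorem tt_comm {x y : R} (hy : y ≠ x) (hy' : y ≠ ι x) (z : R) :
    tt ι x y (ι z) = ι (tt ι x y z) := by
  by_cases a : z = x
  · rw [a, tt_x h1 h2 hy hy', tt_ix h1 h2 hy hy']
  by_cases b : z = ι x
  · rw [b, h2, tt_x h1 h2 hy hy', tt_ix h1 h2 hy hy', h2]
  by_cases c : z = y
  · rw [c, tt_y h1 h2 hy hy', tt_iy h1 h2 hy hy']
  by_cases d : z = ι y
  · rw [d, h2, tt_y h1 h2 hy hy', tt_iy h1 h2 hy hy', h2]
  rw [tt_o a b c d, tt_o]
  · exact fun h => b (iota_eq h2 h)
  · exact fun h => a (ι.injective h)
  · exact fun h => d (iota_eq h2 h)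
  · exact fun h => c (ι.injective h)

variable [Fintype R] {H : Subgroup (Perm R)}

include h1 h2 in
/-- products of sign changes -/
theorem signs (hs : ∀ x, swap x (ι x) ∈ H) : ∀ (n : ℕ) (w : Perm R),
    (Finset.univ.filter (fun x => w x ≠ x)).card ≤ n → (∀ x, w (ι x) = ι (w x)) →
    (∀ x, w x = x ∨ w x = ι x) → w ∈ H := by
  intro n
  induction n with
  | zero =>
    intro w hn _ _
    have h3 : w = 1 := by
      ext x
      by_contra hx
      have h4 : x ∈ Finset.univ.filter (fun x => w x ≠ x) := by
        rw [Finset.mem_filter]
        exact ⟨Finset.mem_univ _, hx⟩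
      have h5 := Finset.card_pos.2 ⟨x, h4⟩
      omega
    rw [h3]
    exact one_mem _
  | succ n ih =>
    intro w hn hc hw
    by_cases h3 : ∃ x, w x ≠ x
    · obtain ⟨x, hx⟩ := h3
      have hx' : w x = ι x := (hw x).resolve_left hx
      have hix : w (ι x) = x := by rw [hc, hx', h2]
      have key : ∀ z, z ≠ x → z ≠ ι x → (swap x (ι x) * w) z = w z := by
        intro z hz hz'
        rw [Perm.mul_apply]
        apply swap_apply_of_ne_of_ne
        · intro h
          exact hz' (w.injective (h.trans hix.symm))
        · intro h
          exact hz (w.injective (h.trans hx'.symm))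
      have kx : (swap x (ι x) * w) x = x := by
        rw [Perm.mul_apply, hx', swap_apply_right]
      have kix : (swap x (ι x) * w) (ι x) = ι x := by
        rw [Perm.mul_apply, hix, swap_apply_left]
      have h5 : swap x (ι x) * w ∈ H := by
        apply ih
        · have h6 : Finset.univ.filter (fun z => (swap x (ι x) * w) z ≠ z) ⊂
              Finset.univ.filter (fun z => w z ≠ z) := by
            rw [Finset.ssubset_iff_of_subset]
            · refine ⟨x, ?_, ?_⟩
              · rw [Finset.mem_filter]
                exact ⟨Finset.mem_univ _, hx⟩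
              · rw [Finset.mem_filter]
                rintro ⟨-, h⟩
                exact h kx
            · intro z hz
              rw [Finset.mem_filter] at hz ⊢
              refine ⟨Finset.mem_univ _, ?_⟩
              by_cases a : z = x
              · rw [a]
                exact hx
              · by_cases b : z = ι x
                · rw [b, hix]
                  exact (h1 x).symm
                · rw [← key z a b]
                  exact hz.2
          have := Finset.card_lt_card h6
          omega
        · intro z
          by_cases a : z = x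
          · rw [a, kx, kix]
          · by_cases b : z = ι x
            · rw [b, kix, h2, kx]
            · rw [key z a b, key (ι z) (fun h => b (iota_eq h2 h)) (fun h => a (ι.injective h)), hc]
        · intro z
          by_cases a : z = x
          · rw [a]
            exact Or.inl kx
          · by_cases b : z = ι x
            · rw [b]
              exact Or.inl kix
            · rw [key z a b]
              exact hw z
      have h6 := H.mul_mem (H.inv_mem (hs x)) h5
      rwa [inv_mul_cancel_left] at h6
    · have h4 : w = 1 := by
        ext x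
        by_contra hx
        exact h3 ⟨x, hx⟩
      rw [h4]
      exact one_mem _

include h1 h2 in
/-- from the transpositions to all -/
theorem all (hs : ∀ x, swap x (ι x) ∈ H) (ht : ∀ x y, y ≠ x → y ≠ ι x → tt ι x y ∈ H) :
    ∀ (n : ℕ) (w : Perm R),
    (Finset.univ.filter (fun x => w x ≠ x ∧ w x ≠ ι x)).card ≤ n → (∀ x, w (ι x) = ι (w x)) →
    w ∈ H := by
  intro n
  induction n with
  | zero =>
    intro w hn hc
    refine signs h1 h2 hs _ w le_rfl hc ?_
    intro x
    by_contra hx
    rw [not_or] at hx
    have h4 : x ∈ Finset.univ.filter (fun x => w x ≠ x ∧ w x ≠ ι x) := by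
      rw [Finset.mem_filter]
      exact ⟨Finset.mem_univ _, hx⟩
    have h5 := Finset.card_pos.2 ⟨x, h4⟩
    omega
  | succ n ih =>
    intro w hn hc
    by_cases h3 : ∃ x, w x ≠ x ∧ w x ≠ ι x
    · obtain ⟨x, hx, hx'⟩ := h3
      obtain ⟨y, hy⟩ : ∃ y, y = w x := ⟨_, rfl⟩
      rw [← hy] at hx hx'
      have kx : (tt ι x y * w) x = x := by
        rw [Perm.mul_apply, ← hy, tt_y h1 h2 hx hx']
      have hwix : w (ι x) = ι y := by rw [hc, hy]
      have kix : (tt ι x y * w) (ι x) = ι x := by
        rw [Perm.mul_apply, hwix, tt_iy h1 h2 hx hx']
      have h5 : tt ι x y * w ∈ H := by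
        apply ih
        · have h6 : Finset.univ.filter (fun z => (tt ι x y * w) z ≠ z ∧ (tt ι x y * w) z ≠ ι z) ⊂
              Finset.univ.filter (fun z => w z ≠ z ∧ w z ≠ ι z) := by
            rw [Finset.ssubset_iff_of_subset]
            · refine ⟨x, ?_, ?_⟩
              · rw [Finset.mem_filter, ← hy]
                exact ⟨Finset.mem_univ _, hx, hx'⟩
              · rw [Finset.mem_filter]
                rintro ⟨-, h, -⟩
                exact h kx
            · intro z hz
              rw [Finset.mem_filter] at hz ⊢
              refine ⟨Finset.mem_univ _, ?_⟩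
              by_contra hcon
              have hzz : w z = z ∨ w z = ι z := by
                by_contra h
                rw [not_or] at h
                exact hcon h
              have a : z ≠ x := by
                intro h
                rw [h, kx] at hz
                exact hz.2.1 rfl
              have b : z ≠ ι x := by
                intro h
                rw [h, kix] at hz
                exact hz.2.1 rfl
              have c' : w z ≠ y := by
                intro h
                exact a (w.injective (h.trans hy))
              have d' : w z ≠ ι y := by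
                intro h
                exact b (w.injective (h.trans hwix.symm))
              have a' : w z ≠ x := by
                intro h
                rcases hzz with h7 | h7
                · exact a (h7.symm.trans h)
                · exact b (iota_eq h2 (h7.symm.trans h))
              have b' : w z ≠ ι x := by
                intro h
                rcases hzz with h7 | h7
                · exact b (h7.symm.trans h)
                · exact a (ι.injective (h7.symm.trans h))
              have h8 : (tt ι x y * w) z = w z := by
                rw [Perm.mul_apply]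
                exact tt_o a' b' c' d'
              rw [h8] at hz
              exact hcon hz.2
          have := Finset.card_lt_card h6
          omega
        · intro z
          rw [Perm.mul_apply, Perm.mul_apply, hc, tt_comm h1 h2 hx hx']
      have h6 := H.mul_mem (H.inv_mem (ht x y hx hx')) h5
      rwa [inv_mul_cancel_left] at h6
    · refine signs h1 h2 hs _ w le_rfl hc ?_
      intro x
      by_contra hx
      rw [not_or] at hx
      exact h3 ⟨x, hx⟩

end

theorem t : Pool.Agent.Y142.ZI.S_GEN := by
  intro R _ _ ι H h1 h2 hcom hcyc hsg htr hpairs w hw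
  obtain ⟨g0, hg0, hcyc⟩ := hcyc
  -- transitivity
  have htrans : ∀ x y, ∃ g ∈ H, g x = y := by
    intro x y
    obtain ⟨k, hk⟩ := hcyc x y
    exact ⟨g0 ^ k, H.pow_mem hg0 k, hk⟩
  -- sign changes
  have hs : ∀ x, swap x (ι x) ∈ H := by
    obtain ⟨h, hh, x0, hx0, hrest⟩ := hsg
    have e1 : h = swap x0 (ι x0) := by
      ext z
      by_cases a : z = x0
      · rw [a, hx0, swap_apply_left]
      · by_cases b : z = ι x0
        · rw [b, hcom h hh, hx0, h2, swap_apply_right]
        · rw [hrest z a b, swap_apply_of_ne_of_ne a b]
    intro x
    obtain ⟨g, hg, hgx⟩ := htrans x0 x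
    have e2 : swap x (ι x) = g * h * g⁻¹ := by
      rw [e1, ← hgx, ← hcom g hg, swap_apply_apply]
    rw [e2]
    exact H.mul_mem (H.mul_mem hg hh) (H.inv_mem hg)
  have hinvcom : ∀ g ∈ H, ∀ x, g⁻¹ (ι x) = ι (g⁻¹ x) := fun g hg => hcom g⁻¹ (H.inv_mem hg)
  -- elements of `H` which exchange two given pairs
  have hex : ∀ x y, y ≠ x → y ≠ ι x → ∃ k ∈ H, (k x = y ∨ k x = ι y) ∧ (k y = x ∨ k y = ι x) ∧
      ∀ z, z ≠ x → z ≠ ι x → z ≠ y → z ≠ ι y → (k z = z ∨ k z = ι z) := by
    intro x y hy hy'
    by_cases h6 : 6 ≤ Fintype.card R
    · obtain ⟨h, hh, x1, y1, hy1, hy1', hx1, hyx1, hrest⟩ := htr h6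
      obtain ⟨z0, hz0⟩ := hpairs
      obtain ⟨g1, hg1, hgx1⟩ := htrans x1 z0
      obtain ⟨g2, hg2, hgx2⟩ := htrans x z0
      have a1 : g1 y1 ≠ z0 := fun h => hy1 (g1.injective (h.trans hgx1.symm))
      have a2 : g1 y1 ≠ ι z0 := by
        intro h
        rw [← hgx1, ← hcom g1 hg1] at h
        exact hy1' (g1.injective h)
      have b1 : g2 y ≠ z0 := fun h => hy (g2.injective (h.trans hgx2.symm))
      have b2 : g2 y ≠ ι z0 := by
        intro h
        rw [← hgx2, ← hcom g2 hg2] at h
        exact hy' (g2.injective h)
      obtain ⟨h', hh', c1, c2⟩ := hz0 (g1 y1) (g2 y) a1 a2 b1 b2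
      obtain ⟨g, hgdef⟩ : ∃ g, g = g2⁻¹ * h' * g1 := ⟨_, rfl⟩
      have hg : g ∈ H := by
        rw [hgdef]
        exact H.mul_mem (H.mul_mem (H.inv_mem hg2) hh') hg1
      have e2 : g2⁻¹ z0 = x := by rw [← hgx2, inv_self]
      have gx : g x1 = x ∨ g x1 = ι x := by
        rw [hgdef, Perm.mul_apply, Perm.mul_apply, hgx1]
        rcases c1 with c | c
        · rw [c, e2]
          exact Or.inl rfl
        · rw [c, hinvcom g2 hg2, e2]
          exact Or.inr rfl
      have gy : g y1 = y ∨ g y1 = ι y := by
        rw [hgdef, Perm.mul_apply, Perm.mul_apply]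
        rcases c2 with c | c
        · rw [c, inv_self]
          exact Or.inl rfl
        · rw [c, hinvcom g2 hg2, inv_self]
          exact Or.inr rfl
      -- pairs
      have pr : ∀ k ∈ H, ∀ a b : R, (k a = b ∨ k a = ι b) → (k (ι a) = b ∨ k (ι a) = ι b) := by
        intro k hk a b hab
        rw [hcom k hk]
        rcases hab with h | h
        · rw [h]
          exact Or.inr rfl
        · rw [h, h2]
          exact Or.inl rfl
      have inv : ∀ k ∈ H, ∀ a b : R, (k a = b ∨ k a = ι b) → (k⁻¹ b = a ∨ k⁻¹ b = ι a) := by
        intro k hk a b hab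
        rcases hab with h | h
        · rw [← h, inv_self]
          exact Or.inl rfl
        · have h3 : b = ι (k a) := by rw [h, h2]
          rw [h3, hinvcom k hk, inv_self]
          exact Or.inr rfl
      have comp : ∀ k ∈ H, ∀ (u a b : R), (u = a ∨ u = ι a) → (k a = b ∨ k a = ι b) →
          (k u = b ∨ k u = ι b) := by
        intro k hk u a b hu hab
        rcases hu with rfl | rfl
        · exact hab
        · exact pr k hk a b hab
      have igx := inv g hg _ _ gx
      have igy := inv g hg _ _ gy
      refine ⟨g * h * g⁻¹, H.mul_mem (H.mul_mem hg hh) (H.inv_mem hg), ?_, ?_, ?_⟩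
      · rw [Perm.mul_apply, Perm.mul_apply]
        exact comp g hg _ _ _ (comp h hh _ _ _ igx hx1) gy
      · rw [Perm.mul_apply, Perm.mul_apply]
        exact comp g hg _ _ _ (comp h hh _ _ _ igy hyx1) gx
      · intro z z1 z2 z3 z4
        rw [Perm.mul_apply, Perm.mul_apply]
        have q : ∀ u : R, g u = z → (g (h u) = z ∨ g (h u) = ι z) := by
          intro u hu
          have n1 : u ≠ x1 := by
            rintro rfl
            rcases gx with c | c
            · exact z1 (hu.symm.trans c)
            · exact z2 (hu.symm.trans c)
          have n2 : u ≠ ι x1 := by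
            rintro rfl
            rcases pr g hg _ _ gx with c | c
            · exact z1 (hu.symm.trans c)
            · exact z2 (hu.symm.trans c)
          have n3 : u ≠ y1 := by
            rintro rfl
            rcases gy with c | c
            · exact z3 (hu.symm.trans c)
            · exact z4 (hu.symm.trans c)
          have n4 : u ≠ ι y1 := by
            rintro rfl
            rcases pr g hg _ _ gy with c | c
            · exact z3 (hu.symm.trans c)
            · exact z4 (hu.symm.trans c)
          rcases hrest u n1 n2 n3 n4 with c | c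
          · rw [c, hu]
            exact Or.inl rfl
          · rw [c, hcom g hg, hu]
            exact Or.inr rfl
        exact q _ (self_inv g z)
    · -- at most two pairs
      have hnone : ∀ z, z ≠ x → z ≠ ι x → z ≠ y → z ≠ ι y → False := by
        intro z z1 z2 z3 z4
        have h7 : ({x, ι x, y, ι y, z, ι z} : Finset R).card = 6 := by
          have n1 : x ≠ ι x := (h1 x).symm
          have n2 : x ≠ y := hy.symm
          have n3 : x ≠ ι y := fun h => hy' (iota_eq h2 h.symm)
          have n4 : x ≠ z := z1.symm
          have n5 : x ≠ ι z := fun h => z2 (iota_eq h2 h.symm)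
          have n6 : ι x ≠ y := hy'.symm
          have n7 : ι x ≠ ι y := fun h => hy (ι.injective h).symm
          have n8 : ι x ≠ z := z2.symm
          have n9 : ι x ≠ ι z := fun h => z1 (ι.injective h).symm
          have n10 : y ≠ ι y := (h1 y).symm
          have n11 : y ≠ z := z3.symm
          have n12 : y ≠ ι z := fun h => z4 (iota_eq h2 h.symm)
          have n13 : ι y ≠ z := z4.symm
          have n14 : ι y ≠ ι z := fun h => z3 (ι.injective h).symm
          have n15 : z ≠ ι z := (h1 z).symm
          rw [Finset.card_insert_of_notMem, Finset.card_insert_of_notMem,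
            Finset.card_insert_of_notMem, Finset.card_insert_of_notMem, Finset.card_pair n15]
          · simp only [Finset.mem_insert, Finset.mem_singleton, not_or]
            exact ⟨n13, n14⟩
          · simp only [Finset.mem_insert, Finset.mem_singleton, not_or]
            exact ⟨n10, n11, n12⟩
          · simp only [Finset.mem_insert, Finset.mem_singleton, not_or]
            exact ⟨n6, n7, n8, n9⟩
          · simp only [Finset.mem_insert, Finset.mem_singleton, not_or]
            exact ⟨n1, n2, n3, n4, n5⟩
        have h8 := Finset.card_le_univ ({x, ι x, y, ι y, z, ι z} : Finset R)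
        omega
      obtain ⟨k, hk, hkx⟩ := htrans x y
      refine ⟨k, hk, Or.inl hkx, ?_, fun z z1 z2 z3 z4 => (hnone z z1 z2 z3 z4).elim⟩
      have n1 : k y ≠ y := fun h => hy (k.injective (h.trans hkx.symm))
      have n2 : k y ≠ ι y := by
        intro h
        rw [← hkx, ← hcom k hk] at h
        have h3 := k.injective h
        exact hy' (by rw [← h3, hkx])
      by_contra hcon
      rw [not_or] at hcon
      exact hnone (k y) hcon.1 hcon.2 n1 n2
  -- the transpositions
  have ht : ∀ x y, y ≠ x → y ≠ ι x → tt ι x y ∈ H := by
    intro x y hy hy'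
    obtain ⟨k, hk, kx, ky, kr⟩ := hex x y hy hy'
    have h3 : tt ι x y * k ∈ H := by
      refine signs h1 h2 hs _ _ le_rfl ?_ ?_
      · intro z
        rw [Perm.mul_apply, Perm.mul_apply, hcom k hk, tt_comm h1 h2 hy hy']
      · intro z
        rw [Perm.mul_apply]
        by_cases a : z = x
        · rw [a]
          rcases kx with c | c
          · rw [c, tt_y h1 h2 hy hy']
            exact Or.inl rfl
          · rw [c, tt_iy h1 h2 hy hy']
            exact Or.inr rfl
        by_cases b : z = ι x
        · rw [b, hcom k hk]
          rcases kx with c | c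
          · rw [c, tt_iy h1 h2 hy hy']
            exact Or.inl rfl
          · rw [c, h2, tt_y h1 h2 hy hy', h2]
            exact Or.inr rfl
        by_cases c' : z = y
        · rw [c']
          rcases ky with c | c
          · rw [c, tt_x h1 h2 hy hy']
            exact Or.inl rfl
          · rw [c, tt_ix h1 h2 hy hy']
            exact Or.inr rfl
        by_cases d : z = ι y
        · rw [d, hcom k hk]
          rcases ky with c | c
          · rw [c, tt_ix h1 h2 hy hy']
            exact Or.inl rfl
          · rw [c, h2, tt_x h1 h2 hy hy', h2]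
            exact Or.inr rfl
        have hkz := kr z a b c' d
        have e : tt ι x y (k z) = k z := by
          rcases hkz with c | c
          · rw [c]
            exact tt_o a b c' d
          · rw [c]
            apply tt_o
            · exact fun h => b (iota_eq h2 h)
            · exact fun h => a (ι.injective h)
            · exact fun h => d (iota_eq h2 h)
            · exact fun h => c' (ι.injective h)
        rw [e]
        exact hkz
    have h4 := H.mul_mem h3 (H.inv_mem hk)
    rwa [mul_inv_cancel_right] at h4
  exact all h1 h2 hs ht _ w le_rfl hw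

end Pool.Agent.Q182.OI.GEN
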